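import Mathlib

set_option autoImplicit false

namespace Pool.Agent.Results.MP_6a4cde_an.Sparse

open Topology

/-- J is an independence set for (U 0, ..., U (n-1)) -/
def IndepSet {G X : Type} [Group G] [MulAction G X] {n : ℕ} (U : Fin n → Set X) (J : Set G) :
    Prop :=
  ∀ I : Finset G, I.Nonempty → (I : Set G) ⊆ J → ∀ σ : I → Fin n,
    ∃ x : X, ∀ g : I, (g : G) • x ∈ U (σ g)

/-- x is an IT-tuple -/
def IsIT (G : Type) {X : Type} [Group G] [MulAction G X] [TopologicalSpace X] {n : ℕ}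
    (x : Fin n → X) : Prop :=
  ∀ U : Fin n → Set X, (∀ i, U i ∈ 𝓝 (x i)) → ∃ J : Set G, J.Infinite ∧ IndepSet U J

/-- no IT-tuple of length n has pairwise distinct entries -/
def NTame (G X : Type) [Group G] [MulAction G X] [TopologicalSpace X] (n : ℕ) : Prop :=
  ∀ x : Fin n → X, IsIT G x → ¬ Function.Injective x

section
variable {G : Type} [Group G]

def Sid (j : ℕ → G) : Prop := ∀ n a b c, a < n → b < n → c < n → j n ≠ j a * (j b)⁻¹ * j c

open Pointwise in
lemma exists_sid [Infinite G] : ∃ j : ℕ → G, Sid j := by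
  classical
  have h : ∀ s : Finset G, ∃ y, y ∉ s * s⁻¹ * s := fun s => Infinite.exists_notMem_finset _
  choose nx hnx using h
  let F : ℕ → Finset G := fun n => Nat.rec ∅ (fun _ s => insert (nx s) s) n
  have hF : ∀ n a, a < n → nx (F a) ∈ F n := by
    intro n
    induction n with
    | zero => intro a ha; omega
    | succ n ih =>
      intro a ha
      show nx (F a) ∈ insert (nx (F n)) (F n)
      rcases Nat.lt_succ_iff_lt_or_eq.1 ha with h | rfl
      · exact Finset.mem_insert_of_mem (ih a h)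
      · exact Finset.mem_insert_self _ _
  refine ⟨fun n => nx (F n), fun n a b c ha hb hc e => hnx (F n) ?_⟩
  simp only at e
  rw [e]
  exact Finset.mul_mem_mul (Finset.mul_mem_mul (hF n a ha) (Finset.inv_mem_inv (hF n b hb)))
    (hF n c hc)

lemma Sid.inj {j : ℕ → G} (h : Sid j) : Function.Injective j := by
  intro a b e
  rcases lt_trichotomy a b with hab | hab | hab
  · exact absurd (by rw [← e]; group) (h b a a a hab hab hab)
  · exact hab
  · exact absurd (by rw [e]; group) (h a b b b hab hab hab)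

lemma Sid.quad {j : ℕ → G} (h : Sid j) {a b c d : ℕ} (e : j a * (j b)⁻¹ * j c = j d) :
    ¬ (a < d ∧ b < d ∧ c < d) ∧ ¬ (d < a ∧ c < a ∧ b < a) ∧ ¬ (b < c ∧ a < c ∧ d < c) ∧
      ¬ (c < b ∧ d < b ∧ a < b) := by
  refine ⟨fun ⟨h1, h2, h3⟩ => h d a b c h1 h2 h3 e.symm,
    fun ⟨h1, h2, h3⟩ => h a d c b h1 h2 h3 ?_, fun ⟨h1, h2, h3⟩ => h c b a d h1 h2 h3 ?_,
    fun ⟨h1, h2, h3⟩ => h b c d a h1 h2 h3 ?_⟩ <;> rw [← e] <;> group

lemma Sid.two {j : ℕ → G} (h : Sid j) {a b a' b' : ℕ} (e : j b * (j a)⁻¹ * j a' = j b')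
    (h1 : a ≠ b) (h2 : a ≠ a') : (a = b' ∧ b < a ∧ a' < a) ∨ (b = a' ∧ a < b ∧ b' < b) := by
  have h3 : b ≠ b' := by
    rintro rfl
    have : j a = j a' := by
      have e2 : j a' = j a * (j b)⁻¹ * (j b * (j a)⁻¹ * j a') := by group
      rw [e2, e]; group
    exact h2 (h.inj this)
  have h4 : a' ≠ b' := by
    rintro rfl
    have : j b = j a := by
      have e2 : j b = (j b * (j a)⁻¹ * j a') * (j a')⁻¹ * j a := by group
      rw [e2, e]; group
    exact h1 (h.inj this).symm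
  have := h.quad e
  omega

lemma Sid.left {j : ℕ → G} (h : Sid j) {s : G} (hs : s ≠ 1) {a1 a2 a3 b1 b2 b3 : ℕ}
    (e1 : s * j a1 = j b1) (e2 : s * j a2 = j b2) (e3 : s * j a3 = j b3)
    (h12 : a1 ≠ a2) (h13 : a1 ≠ a3) (h23 : a2 ≠ a3) : False := by
  have n1 : a1 ≠ b1 := by rintro rfl; exact hs (by simpa using e1)
  have n2 : a2 ≠ b2 := by rintro rfl; exact hs (by simpa using e2)
  have t12 := h.two (a := a1) (b := b1) (a' := a2) (b' := b2) (by rw [← e1, ← e2]; group) n1 h12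
  have t13 := h.two (a := a1) (b := b1) (a' := a3) (b' := b3) (by rw [← e1, ← e3]; group) n1 h13
  have t23 := h.two (a := a2) (b := b2) (a' := a3) (b' := b3) (by rw [← e2, ← e3]; group) n2 h23
  omega

lemma Sid.two' {j : ℕ → G} (h : Sid j) {a b a' b' : ℕ} (e : j a' * (j a)⁻¹ * j b = j b')
    (h1 : a ≠ b) (h2 : a ≠ a') : (a = b' ∧ b < a ∧ a' < a) ∨ (b = a' ∧ a < b ∧ b' < b) := by
  have := h.two e h2 h1
  omega

lemma Sid.right {j : ℕ → G} (h : Sid j) {s : G} (hs : s ≠ 1) {a1 a2 a3 b1 b2 b3 : ℕ}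
    (e1 : j a1 * s = j b1) (e2 : j a2 * s = j b2) (e3 : j a3 * s = j b3)
    (h12 : a1 ≠ a2) (h13 : a1 ≠ a3) (h23 : a2 ≠ a3) : False := by
  have n1 : a1 ≠ b1 := by rintro rfl; exact hs (by simpa using e1)
  have n2 : a2 ≠ b2 := by rintro rfl; exact hs (by simpa using e2)
  have t12 := h.two' (a := a1) (b := b1) (a' := a2) (b' := b2) (by rw [← e1, ← e2]; group) n1 h12
  have t13 := h.two' (a := a1) (b := b1) (a' := a3) (b' := b3) (by rw [← e1, ← e3]; group) n1 h13
  have t23 := h.two' (a := a2) (b := b2) (a' := a3) (b' := b3) (by rw [← e2, ← e3]; group) n2 h23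
  omega

lemma Sid.fin {j : ℕ → G} (h : Sid j) {s : G} (hs : s ≠ 1) :
    {a : ℕ | ∃ b, j a * s = j b}.Finite := by
  by_contra hi
  have hi' : {a : ℕ | ∃ b, j a * s = j b}.Infinite := hi
  let e := hi'.natEmbedding
  obtain ⟨b0, h0⟩ := (e 0).2
  obtain ⟨b1, h1⟩ := (e 1).2
  obtain ⟨b2, h2⟩ := (e 2).2
  have hne : ∀ m n : ℕ, m ≠ n → ((e m : ℕ)) ≠ e n := fun m n hmn e' =>
    hmn (e.injective (Subtype.ext e'))
  exact h.right hs h0 h1 h2 (hne _ _ (by decide)) (hne _ _ (by decide)) (hne _ _ (by decide))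

def P (j : ℕ → G) (x : G → Bool) : Prop :=
  ∀ F : Finset G, (∀ g ∈ F, x g = true) → ∃ t, ∀ g ∈ F, ∃ n, g = t * j n

def Y (j : ℕ → G) : Type := {x : G → Bool // P j x}

instance (j : ℕ → G) : TopologicalSpace (Y j) :=
  inferInstanceAs (TopologicalSpace {x : G → Bool // P j x})

lemma closedP (j : ℕ → G) : IsClosed {x : G → Bool | P j x} := by
  have : {x : G → Bool | P j x} = ⋂ F : Finset G,
      {x | (∀ g ∈ F, x g = true) → ∃ t, ∀ g ∈ F, ∃ n, g = t * j n} := by
    ext x; simp only [P, Set.mem_ofPred_eq, Set.mem_iInter]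
  rw [this]
  refine isClosed_iInter fun F => ?_
  by_cases hC : ∃ t, ∀ g ∈ F, ∃ n, g = t * j n
  · simp only [hC, implies_true, Set.ofPred_true, isClosed_univ]
  · have e : {x : G → Bool | (∀ g ∈ F, x g = true) → ∃ t, ∀ g ∈ F, ∃ n, g = t * j n} =
        (⋂ g ∈ F, (fun x : G → Bool => x g) ⁻¹' {true})ᶜ := by
      ext x; simp only [hC, imp_false, Set.mem_ofPred_eq, Set.mem_compl_iff, Set.mem_iInter,
        Set.mem_preimage, Set.mem_singleton_iff]
    rw [e, isClosed_compl_iff]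
    exact isOpen_biInter_finset fun g _ => (isOpen_discrete _).preimage (continuous_apply g)

instance (j : ℕ → G) : CompactSpace (Y j) :=
  isCompact_iff_compactSpace.1 (closedP j).isCompact

instance [Countable G] (j : ℕ → G) : TopologicalSpace.MetrizableSpace (Y j) := by
  haveI : SecondCountableTopology (G → Bool) := inferInstance
  haveI : T3Space (G → Bool) := inferInstance
  haveI : TopologicalSpace.MetrizableSpace (G → Bool) :=
    TopologicalSpace.metrizableSpace_of_t3_secondCountable _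
  exact Topology.IsEmbedding.metrizableSpace
    (f := (Subtype.val : {x : G → Bool // P j x} → G → Bool)) Topology.IsEmbedding.subtypeVal

instance (j : ℕ → G) : MulAction G (Y j) where
  smul g x := ⟨fun h => x.1 (g⁻¹ * h), by
    classical
    intro F hF
    obtain ⟨t, ht⟩ := x.2 (F.image (g⁻¹ * ·)) (by
      intro h hh
      obtain ⟨k, hk, rfl⟩ := Finset.mem_image.1 hh
      exact hF k hk)
    refine ⟨g * t, fun h hh => ?_⟩
    obtain ⟨n, hn⟩ := ht _ (Finset.mem_image_of_mem _ hh)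
    exact ⟨n, by rw [mul_assoc, ← hn]; group⟩⟩
  one_smul x := Subtype.ext (funext fun h => by
    show x.1 (1⁻¹ * h) = x.1 h
    simp)
  mul_smul g g' x := Subtype.ext (funext fun h => by
    show x.1 ((g * g')⁻¹ * h) = x.1 (g'⁻¹ * (g⁻¹ * h))
    group)

lemma smul_val {j : ℕ → G} (g : G) (x : Y j) (h : G) : (g • x).1 h = x.1 (g⁻¹ * h) := rfl

lemma cont_ev {j : ℕ → G} (h : G) : Continuous fun x : Y j => x.1 h :=
  (continuous_apply h).comp continuous_subtype_val

lemma cont (j : ℕ → G) : ContinuousConstSMul G (Y j) :=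
  ⟨fun g => Continuous.subtype_mk (continuous_pi fun h => cont_ev (g⁻¹ * h)) _⟩

lemma two_pts {y z : G → Bool} (hyz : y ≠ z) (hy : ∃ a, y a = true) (hz : ∃ b, z b = true) :
    ∃ a b, a ≠ b ∧ y a = true ∧ z b = true := by
  by_contra hc
  push Not at hc
  obtain ⟨a0, ha⟩ := hy
  obtain ⟨b0, hb⟩ := hz
  have e0 : a0 = b0 := by
    by_contra h; exact hc a0 b0 h ha hb
  subst e0
  apply hyz
  funext h
  by_cases hh : h = a0
  · rw [hh, ha, hb]
  · have h1 : y h ≠ true := fun h1 => hc h a0 hh h1 hb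
    have h2 : z h ≠ true := fun h2 => hc a0 h (Ne.symm hh) ha h2
    simp at h1 h2
    rw [h1, h2]

lemma tame3 {j : ℕ → G} (hj : Sid j) : NTame G (Y j) 3 := by
  classical
  intro x hx hinj
  have hne : ∀ i k, i ≠ k → (x i).1 ≠ (x k).1 := fun i k hik e => hik (hinj (Subtype.ext e))
  have hz : ∀ i k, i ≠ k → (∃ a, (x i).1 a = true) ∨ ∃ a, (x k).1 a = true := by
    intro i k hik
    by_contra hc
    push Not at hc
    apply hne i k hik
    funext h
    have h1 := hc.1 h
    have h2 := hc.2 h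
    simp at h1 h2
    rw [h1, h2]
  obtain ⟨i, k, hik, hi, hk⟩ : ∃ i k, i ≠ k ∧ (∃ a, (x i).1 a = true) ∧
      ∃ a, (x k).1 a = true := by
    rcases hz 0 1 (by decide) with h0 | h1
    · rcases hz 1 2 (by decide) with h1 | h2
      · exact ⟨0, 1, by decide, h0, h1⟩
      · exact ⟨0, 2, by decide, h0, h2⟩
    · rcases hz 0 2 (by decide) with h0 | h2
      · exact ⟨0, 1, by decide, h0, h1⟩
      · exact ⟨1, 2, by decide, h1, h2⟩
  obtain ⟨a, b, hab, ha, hb⟩ := two_pts (hne i k hik) hi hk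
  let U : Fin 3 → Set (Y j) := fun m =>
    if m = i then {y | y.1 a = true} else if m = k then {y | y.1 b = true} else Set.univ
  have hUi : U i = {y | y.1 a = true} := by simp [U]
  have hUk : U k = {y | y.1 b = true} := by simp [U, Ne.symm hik]
  obtain ⟨J, hJ, hI⟩ := hx U (by
    intro m
    by_cases h1 : m = i
    · rw [h1, hUi]
      exact ((isOpen_discrete {true}).preimage (cont_ev a)).mem_nhds ha
    · by_cases h2 : m = k
      · rw [h2, hUk]
        exact ((isOpen_discrete {true}).preimage (cont_ev b)).mem_nhds hb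
      · simp [U, h1, h2])
  let e : ℕ → G := fun m => (hJ.natEmbedding J m : G)
  have he : Function.Injective e := fun m n h =>
    (hJ.natEmbedding J).injective (Subtype.ext h)
  have key : ∀ N : ℕ, ∃ t, ∀ m < 6, ∃ n, (e m)⁻¹ * (if m < N then a else b) = t * j n := by
    intro N
    obtain ⟨y, hy⟩ := hI ((Finset.range 6).image e) ⟨e 0, Finset.mem_image_of_mem _ (by simp)⟩
      (by
        intro g hg
        obtain ⟨m, _, rfl⟩ := Finset.mem_image.1 (Finset.mem_coe.1 hg)
        exact (hJ.natEmbedding J m).2)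
      (fun g => if ∃ m < N, e m = g then i else k)
    obtain ⟨t, ht⟩ := y.2 ((Finset.range 6).image fun m => (e m)⁻¹ * (if m < N then a else b)) (by
      intro g hg
      obtain ⟨m, hm, rfl⟩ := Finset.mem_image.1 hg
      have h1 := hy ⟨e m, Finset.mem_image_of_mem _ hm⟩
      by_cases hN : m < N
      · rw [if_pos ⟨m, hN, rfl⟩, hUi] at h1
        rw [if_pos hN]
        exact h1
      · rw [if_neg (by
          rintro ⟨m', h2, h3⟩
          exact hN (he h3 ▸ h2)), hUk] at h1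
        rw [if_neg hN]
        exact h1)
    exact ⟨t, fun m hm => ht _ (Finset.mem_image_of_mem _ (Finset.mem_range.2 hm))⟩
  obtain ⟨t, ht⟩ := key 6
  obtain ⟨t', ht'⟩ := key 3
  have hd : ∀ m m' n n', m ≠ m' → (e m)⁻¹ * a = t * j n → (e m')⁻¹ * a = t * j n' → n ≠ n' := by
    rintro m m' n n' hm h1 h2 rfl
    rw [← h2] at h1
    exact hm (he (inv_injective (mul_right_cancel h1)))
  obtain ⟨n0, h0⟩ := ht 0 (by decide)
  obtain ⟨n1, h1⟩ := ht 1 (by decide)
  obtain ⟨n2, h2⟩ := ht 2 (by decide)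
  obtain ⟨n3, h3⟩ := ht 3 (by decide)
  obtain ⟨n4, h4⟩ := ht 4 (by decide)
  obtain ⟨n5, h5⟩ := ht 5 (by decide)
  obtain ⟨m0, g0⟩ := ht' 0 (by decide)
  obtain ⟨m1, g1⟩ := ht' 1 (by decide)
  obtain ⟨m2, g2⟩ := ht' 2 (by decide)
  obtain ⟨m3, g3⟩ := ht' 3 (by decide)
  obtain ⟨m4, g4⟩ := ht' 4 (by decide)
  obtain ⟨m5, g5⟩ := ht' 5 (by decide)
  rw [if_pos (by decide)] at h0 h1 h2 h3 h4 h5 g0 g1 g2
  rw [if_neg (by decide)] at g3 g4 g5
  by_cases htt : t'⁻¹ * t = 1
  · have e0 : t' = t := by rwa [inv_mul_eq_one] at htt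
    subst e0
    have hs : a⁻¹ * b ≠ 1 := by rwa [Ne, inv_mul_eq_one]
    have r : ∀ m n n', (e m)⁻¹ * a = t' * j n → (e m)⁻¹ * b = t' * j n' →
        j n * (a⁻¹ * b) = j n' := by
      intro m n n' p1 p2
      apply mul_left_cancel (a := t')
      rw [← p2, ← mul_assoc, ← p1]; group
    exact hj.right hs (r _ _ _ h3 g3) (r _ _ _ h4 g4) (r _ _ _ h5 g5)
      (hd _ _ _ _ (by decide) h3 h4) (hd _ _ _ _ (by decide) h3 h5) (hd _ _ _ _ (by decide) h4 h5)
  · have r : ∀ m n n', (e m)⁻¹ * a = t * j n → (e m)⁻¹ * a = t' * j n' →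
        t'⁻¹ * t * j n = j n' := by
      intro m n n' p1 p2
      rw [mul_assoc, ← p1, p2]; group
    exact hj.left htt (r _ _ _ h0 g0) (r _ _ _ h1 g1) (r _ _ _ h2 g2)
      (hd _ _ _ _ (by decide) h0 h1) (hd _ _ _ _ (by decide) h0 h2) (hd _ _ _ _ (by decide) h1 h2)

lemma untame {j : ℕ → G} (hj : Sid j) : ¬ NTame G (Y j) 2 := by
  classical
  intro h
  have p1 : ∀ c : Bool, P j (fun g => c && decide (g = 1)) := by
    intro c F hF
    refine ⟨(j 0)⁻¹, fun g hg => ⟨0, ?_⟩⟩
    have := hF g hg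
    simp only [Bool.and_eq_true, decide_eq_true_eq] at this
    simp [this.2]
  let x : Fin 2 → Y j := fun i => ⟨fun g => decide (i = 1) && decide (g = 1), p1 _⟩
  refine h x ?_ ?_
  · intro U hU
    have hW : ∀ i, ∃ W : Finset G, ∀ y : Y j, (∀ g ∈ W, y.1 g = (x i).1 g) → y ∈ U i := by
      intro i
      obtain ⟨V, hV, hVU⟩ := (mem_nhds_subtype _ _ _).1 (hU i)
      rw [nhds_pi, Filter.mem_pi'] at hV
      obtain ⟨W, T, hT, hWT⟩ := hV
      refine ⟨W, fun y hy => hVU (hWT fun g hg => ?_)⟩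
      show y.1 g ∈ T g
      rw [hy g hg]
      exact mem_of_mem_nhds (hT g)
    choose W hW using hW
    let Bad : Set ℕ := ⋃ s ∈ ((W 0 ∪ W 1).erase 1), {a : ℕ | ∃ b, j a * s = j b}
    have hBad : Bad.Finite :=
      Set.Finite.biUnion ((W 0 ∪ W 1).erase 1).finite_toSet fun s hs =>
        hj.fin (Finset.ne_of_mem_erase hs)
    refine ⟨(fun n => (j n)⁻¹) '' Badᶜ, hBad.infinite_compl.image
      (inv_injective.comp hj.inj).injOn, ?_⟩
    intro I _ hI σ
    refine ⟨⟨fun g => decide (∃ hg : g⁻¹ ∈ I, σ ⟨g⁻¹, hg⟩ = 1), ?_⟩, ?_⟩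
    · intro F hF
      refine ⟨1, fun g hg => ?_⟩
      have h1 := hF g hg
      simp only [decide_eq_true_eq] at h1
      obtain ⟨h2, -⟩ := h1
      obtain ⟨n, -, hn⟩ := hI (Finset.mem_coe.2 h2)
      exact ⟨n, by rw [one_mul]; exact (inv_injective hn).symm⟩
    · rintro ⟨g, hg⟩
      apply hW
      intro s hs
      rw [smul_val]
      show decide (∃ hg' : (g⁻¹ * s)⁻¹ ∈ I, σ ⟨(g⁻¹ * s)⁻¹, hg'⟩ = 1) =
        (decide (σ ⟨g, hg⟩ = 1) && decide (s = 1))
      by_cases h1 : s = 1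
      · subst h1
        simp [hg]
      · have h2 : (g⁻¹ * s)⁻¹ ∉ I := by
          intro h2
          obtain ⟨n, hn, e1⟩ := hI (Finset.mem_coe.2 hg)
          obtain ⟨m, -, e2⟩ := hI (Finset.mem_coe.2 h2)
          apply hn
          have hs' : s ∈ (W 0 ∪ W 1).erase 1 := by
            refine Finset.mem_erase.2 ⟨h1, ?_⟩
            generalize σ ⟨g, hg⟩ = i at hs
            fin_cases i
            · exact Finset.mem_union_left _ hs
            · exact Finset.mem_union_right _ hs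
          refine Set.mem_biUnion hs' ⟨m, ?_⟩
          simp only at e1 e2
          rw [inv_injective e2, ← e1, inv_inv]
        simp only [h1, decide_false, Bool.and_false, decide_eq_false_iff_not]
        rintro ⟨h3, -⟩
        exact h2 h3
  · intro i k e
    have := congrArg (fun y : Y j => y.1 1) e
    simp only [x, decide_true, Bool.and_true, decide_eq_decide] at this
    fin_cases i <;> fin_cases k <;> simp_all

end

theorem result (G : Type) [Group G] [Countable G] [Infinite G] :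
    ∃ (X : Type) (_ : MetricSpace X) (_ : CompactSpace X) (_ : MulAction G X),
      ContinuousConstSMul G X ∧ NTame G X 3 ∧ ¬ NTame G X 2 := by
  obtain ⟨j, hj⟩ := exists_sid (G := G)
  exact ⟨Y j, TopologicalSpace.metrizableSpaceMetric (Y j), inferInstanceAs (CompactSpace (Y j)),
    inferInstance, cont j, tame3 hj, untame hj⟩

end Pool.Agent.Results.MP_6a4cde_an.Sparse
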